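import Pool.Agent.Lib.MP_75b31c_lc.D40.Iface
import Pool.Agent.Lib.MP_75b31c_lc.H40.Unif
import Pool.Agent.Lib.MP_75b31c_lc.H74.Var

set_option autoImplicit false

/-!
# Turing equivalence is not universal: definitions and statements (MP_75b31c_lc, Part B)

Sections 1 and 2 of E40/Paper.md. Each module `XXX` proves `theorem xxx (hypotheses : other statements) : XXX_S`.
-/

namespace Pool.Agent.Lib.MP_75b31c_lc.N40

open MeasureTheory Filter
open Pool.Agent.Lib.MP_75b31c_lc.H40 (chi coin coinPi shift pre)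

/-- `y ≤_T z`. -/
def TLe (y z : ℕ → Bool) : Prop := TuringReducible (chi y) (chi z)

/-- `y ≡_T z`. -/
def TEq (y z : ℕ → Bool) : Prop := TLe y z ∧ TLe z y

/-! ### String functionals (1.3) -/

/-- A string functional. -/
structure IsFn (φ : List Bool → List Bool) : Prop where
  mono : ∀ ρ ρ' : List Bool, ρ <+: ρ' → φ ρ <+: φ ρ'
  comp : Computable φ

/-- `φ` computes `y` from `z`. -/
def Cmp (φ : List Bool → List Bool) (z y : ℕ → Bool) : Prop :=
  (∀ t, φ (pre z t) = pre y (φ (pre z t)).length) ∧ ∀ n, ∃ t, n ≤ (φ (pre z t)).length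

/-- A guess functional `G` gives `b` for all long initial segments of `z`, and is never wrong. -/
def Gd (G : List Bool → Option Bool) (z : ℕ → Bool) (b : Bool) : Prop :=
  (∀ t c, G (pre z t) = some c → c = b) ∧ ∀ᶠ t in atTop, G (pre z t) = some b

/-- TUR: search along initial segments (see `search_rec_comp` in H40/Unif.lean; for `n < n₀` use a finite table). -/
def TUR_S : Prop := ∀ (G : List Bool → ℕ → Option Bool), Computable₂ G →
  ∀ (z p : ℕ → Bool) (n₀ : ℕ),
    (∀ n, n₀ ≤ n → (∀ t c, G (pre z t) n = some c → c = p n) ∧ ∃ t, G (pre z t) n = some (p n)) →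
    TLe p z

/-- ENU: a computable list of string functionals for all reductions (see `oracle_code` in Lib/MP_f7c71a_lc/Oracle.lean,
`val_primrec`, `val_mono` and the proof of `computes_iff` in H40/MeasC.lean). `ψ c ρ` = longest list of answers. -/
def ENU_S : Prop := ∃ ψ : ℕ → List Bool → List Bool, Computable₂ ψ ∧
  (∀ c, IsFn (ψ c)) ∧ ∀ z y : ℕ → Bool, TLe y z → ∃ c, Cmp (ψ c) z y

/-- MEAS: measurability (sets depending on finitely many bits are clopen, countable operations).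
`TLe`: use `ENU_S` and `TUR_S`. -/
def MEAS_S : Prop :=
  (∀ φ : List Bool → List Bool, MeasurableSet {p : (ℕ → Bool) × (ℕ → Bool) | Cmp φ p.1 p.2}) ∧
  (∀ (G : List Bool → Option Bool) (b : Bool), MeasurableSet {z : ℕ → Bool | Gd G z b}) ∧
  (∀ (U : List Bool → Bool) (k : ℕ), Measurable fun z : ℕ → Bool => U (pre z k)) ∧
  (∀ (E : List Bool → ℕ) (k : ℕ), Measurable fun z : ℕ → Bool => E (pre z k)) ∧
  MeasurableSet {p : (ℕ → Bool) × (ℕ → Bool) | TLe p.1 p.2}

/-- CMPC: composition. -/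
def CMPC_S : Prop :=
  (∀ φ φ' : List Bool → List Bool, IsFn φ → IsFn φ' → IsFn (fun ρ => φ' (φ ρ))) ∧
  (∀ (φ φ' : List Bool → List Bool) (z y x : ℕ → Bool), IsFn φ → IsFn φ' → Cmp φ z y → Cmp φ' y x →
    Cmp (fun ρ => φ' (φ ρ)) z x) ∧
  (∀ (φ : List Bool → List Bool) (G : List Bool → Option Bool) (z y : ℕ → Bool) (b : Bool),
    IsFn φ → Cmp φ z y → Gd G y b → Gd (fun ρ => G (φ ρ)) z b) ∧
  (∀ (φ : List Bool → List Bool) (z y : ℕ → Bool), IsFn φ → Cmp φ z y → TLe y z)

/-! ### Majority (1.5) -/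

/-- The bit which occurs at place `k` in more than half of the lists. -/
def majAt (Ls : List (List Bool)) (k : ℕ) : Option Bool :=
  if Ls.length < 2 * (Ls.countP fun l => l[k]? == some true) then some true
  else if Ls.length < 2 * (Ls.countP fun l => l[k]? == some false) then some false else none

/-- The majority string of the lists `Ls`. -/
def comb (Ls : List (List Bool)) : List Bool :=
  (Ls.map List.length).sum.rec [] fun _ acc => acc ++ (majAt Ls acc.length).toList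

/-- The majority of optional bits. -/
def majO (Ls : List (Option Bool)) : Option Bool :=
  if Ls.length < 2 * (Ls.countP fun l => l == some true) then some true
  else if Ls.length < 2 * (Ls.countP fun l => l == some false) then some false else none

open Classical in
/-- The number of `j < N` with `P j`. -/
noncomputable def cnt (N : ℕ) (P : ℕ → Prop) : ℕ := ((Finset.range N).filter P).card

/-- MAJ: properties of `comb`. -/
def MAJ_S : Prop := Computable comb ∧
  (∀ (N : ℕ) (φ : ℕ → List Bool → List Bool), (∀ j, j < N → IsFn (φ j)) →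
    IsFn (fun ρ => comb ((List.range N).map fun j => φ j ρ))) ∧
  ∀ (N : ℕ) (φ : ℕ → List Bool → List Bool) (z y : ℕ → Bool), (∀ j, j < N → IsFn (φ j)) →
    N < 2 * cnt N (fun j => Cmp (φ j) z y) →
    Cmp (fun ρ => comb ((List.range N).map fun j => φ j ρ)) z y

/-- MAJG: properties of `majO`. -/
def MAJG_S : Prop := Computable majO ∧
  ∀ (N : ℕ) (G : ℕ → List Bool → Option Bool) (z : ℕ → Bool) (b : Bool),
    N < 2 * cnt N (fun j => Gd (G j) z b) →
    Gd (fun ρ => majO ((List.range N).map fun j => G j ρ)) z b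

/-- TREE: computability of tree recursion (breadth first: the lists of all nodes of level `i`, then upwards in
groups of `N`). -/
def TREE_S : Prop := ∀ (α β : Type) [Primcodable α] [Primcodable β] (N : ℕ) (leaf : α → β)
  (down : α → List α) (up : List β → β), Computable leaf → Computable down → Computable up →
  (∀ a, (down a).length = N) →
  ∀ R : ℕ → α → β, (∀ a, R 0 a = leaf a) → (∀ n a, R (n + 1) a = up ((down a).map (R n))) →
    Computable₂ R

/-- The number of functionals. -/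
def NN : ℕ := 16384

/-- The error. -/
noncomputable def qq : ℝ := (1 / 2) ^ 20

/-- The functionals `H n` of 1.6. -/
def HH (Ft Fti : ℕ → List Bool → List Bool) (Fa Fai FT : List Bool → List Bool) :
    ℕ → List Bool → List Bool
  | 0 => FT
  | n + 1 => fun ρ => comb ((List.range NN).map fun j =>
      Fti j (Fai (HH Ft Fti Fa Fai FT n (Fa (Ft j ρ)))))

/-- The guess `g` of 1.7. -/
def guess (k : ℕ) (U : List Bool → Bool) (H : ℕ → List Bool → List Bool) (ρ : List Bool) (n : ℕ) :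
    Option Bool :=
  if k ≤ ρ.length ∧ k ≤ (H n ρ).length then some (xor (U (ρ.take k)) (U ((H n ρ).take k))) else none

/-- The amplified guesses `g_i` of 1.8. -/
def amp (Ft : ℕ → List Bool → List Bool) (g : List Bool → ℕ → Option Bool) :
    ℕ → List Bool → ℕ → Option Bool
  | 0 => g
  | i + 1 => fun ρ n => majO ((List.range NN).map fun j => amp Ft g i (Ft j ρ) n)

/-- HCOMP: computability of everything. In the last statement `amp … n ρ n` is used as a function of `(ρ, n)`. -/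
def HCOMP_S : Prop := TREE_S → CMPC_S → MAJ_S → MAJG_S →
  ∀ (Ft Fti : ℕ → List Bool → List Bool) (Fa Fai FT : List Bool → List Bool),
    (∀ j, j < NN → IsFn (Ft j)) → (∀ j, j < NN → IsFn (Fti j)) → IsFn Fa → IsFn Fai → IsFn FT →
    (∀ n, IsFn (HH Ft Fti Fa Fai FT n)) ∧ Computable₂ (HH Ft Fti Fa Fai FT) ∧
    ∀ (k : ℕ) (U : List Bool → Bool), Computable U →
      Computable₂ fun (ρ : List Bool) (n : ℕ) =>
        amp Ft (guess k U (HH Ft Fti Fa Fai FT)) n ρ n

/-! ### Dynamics (1.4, 1.6) -/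

/-- The dynamical setting: `t j`, `a` and their inverses, and `w n` (in the application `w 0 = T`,
`w (n+1) = a⁻¹ w n a`), all preserving `μ`, and the variance inequality (V) for the family `t`. -/
structure Dyn (X : Type) [MeasurableSpace X] (μ : Measure X) where
  t : ℕ → X → X
  ti : ℕ → X → X
  a : X → X
  ai : X → X
  w : ℕ → X → X
  mt : ∀ j, MeasurePreserving (t j) μ μ
  mti : ∀ j, MeasurePreserving (ti j) μ μ
  ma : MeasurePreserving a μ μ
  mai : MeasurePreserving ai μ μ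
  mw : ∀ n, MeasurePreserving (w n) μ μ
  ti_t : ∀ j x, ti j (t j x) = x
  w_succ : ∀ n x, w (n + 1) x = ai (w n (a x))
  comm : ∀ n j x, w n (t j x) = t j (w n x)
  var : ∀ B : Set X, MeasurableSet B → ∀ θ : ℝ, μ.real B < θ →
    μ.real {x | θ * NN ≤ cnt NN (fun j => t j x ∈ B)} ≤ 16 * μ.real B / (NN * (θ - μ.real B) ^ 2)

/-- MARK: the Markov inequality for counts. -/
def MARK_S : Prop := ∀ (X : Type) [MeasurableSpace X] (μ : Measure X) [IsProbabilityMeasure μ]
  (B : ℕ → Set X), (∀ j, MeasurableSet (B j)) → ∀ (ε : ℝ), (∀ j, j < NN → μ.real (B j) ≤ ε) →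
  ∀ θ : ℝ, 0 < θ → μ.real {x | θ * NN ≤ cnt NN (fun j => x ∈ B j)} ≤ ε / θ ∧
    MeasurableSet {x | θ * NN ≤ cnt NN (fun j => x ∈ B j)}

/-- ERR: error correction (1.6). -/
def ERR_S : Prop := MARK_S → MEAS_S → CMPC_S → MAJ_S → HCOMP_S → TREE_S → MAJG_S →
  ∀ (X : Type) [MeasurableSpace X] (μ : Measure X) [IsProbabilityMeasure μ] (D : Dyn X μ)
    (h : X → ℕ → Bool), Measurable h →
  ∀ (Ft Fti : ℕ → List Bool → List Bool) (Fa Fai FT : List Bool → List Bool),
    (∀ j, j < NN → IsFn (Ft j)) → (∀ j, j < NN → IsFn (Fti j)) → IsFn Fa → IsFn Fai → IsFn FT →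
    (∀ j, j < NN → μ.real {x | ¬ Cmp (Ft j) (h x) (h (D.t j x))} ≤ qq) →
    (∀ j, j < NN → μ.real {x | ¬ Cmp (Fti j) (h x) (h (D.ti j x))} ≤ qq) →
    μ.real {x | ¬ Cmp Fa (h x) (h (D.a x))} ≤ qq →
    μ.real {x | ¬ Cmp Fai (h x) (h (D.ai x))} ≤ qq →
    μ.real {x | ¬ Cmp FT (h x) (h (D.w 0 x))} ≤ qq →
    ∀ n, μ.real {x | ¬ Cmp (HH Ft Fti Fa Fai FT n) (h x) (h (D.w n x))} ≤ 50 * qq

/-- GUESS: the error of the guess (1.7). -/
def GUESS_S : Prop := MEAS_S → CMPC_S →
  ∀ (X : Type) [MeasurableSpace X] (μ : Measure X) [IsProbabilityMeasure μ] (D : Dyn X μ)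
    (h : X → ℕ → Bool), Measurable h → ∀ (bit : X → Bool), Measurable bit → ∀ (p : ℕ → Bool),
    (∀ n x, bit (D.w n x) = xor (bit x) (p n)) →
  ∀ (H : ℕ → List Bool → List Bool), (∀ n, IsFn (H n)) →
    (∀ n, μ.real {x | ¬ Cmp (H n) (h x) (h (D.w n x))} ≤ 50 * qq) →
  ∀ (k : ℕ) (U : List Bool → Bool), μ.real {x | U (pre (h x) k) ≠ bit x} ≤ qq →
    ∀ n, μ.real {x | ¬ Gd (fun ρ => guess k U H ρ n) (h x) (p n)} ≤ 52 * qq

/-- CORE: the core and the contraction (1.8), pure measure theory. -/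
def CORE_S : Prop := MARK_S →
  ∀ (X : Type) [MeasurableSpace X] (μ : Measure X) [IsProbabilityMeasure μ] (D : Dyn X μ)
    (B : ℕ → Set X), (∀ j, MeasurableSet (B j)) → (∀ j, j < NN → μ.real (B j) ≤ qq) →
  ∀ (E : ℕ → ℕ → Set X), (∀ i n, MeasurableSet (E i n)) → (∀ n, μ.real (E 0 n) ≤ 52 * qq) →
    (∀ i n, E (i + 1) n ⊆ {x | NN ≤ 2 * cnt NN (fun j => x ∈ B j ∨ D.t j x ∈ E i n)}) →
    ∃ x, ∀ᶠ n in atTop, x ∉ E n n

/-! ### Making `h` injective, tables (1.1, 1.2) -/

/-- `0 ^ n 1 z`. -/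
def pad (n : ℕ) (z : ℕ → Bool) : ℕ → Bool := fun i =>
  if i < n then false else if i = n then true else z (i - n - 1)

/-- PAD. -/
def PAD_S : Prop := (∀ n z, TEq (pad n z) z) ∧
  (∀ n n' z z', pad n z = pad n' z' → n = n' ∧ z = z') ∧
  Measurable fun p : ℕ × (ℕ → Bool) => pad p.1 p.2

/-- INJ: (1.1), see H74/Sel.lean, `selection`. -/
def INJ_S : Prop := ∀ (G : Type) [Group G] [Countable G] (X : Type) [MeasurableSpace X]
  [StandardBorelSpace X] [MulAction G X], (∀ g : G, Measurable fun x : X => g • x) →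
  ∀ (μ : Measure X) [IsProbabilityMeasure μ] (h : X → ℕ → Bool), Measurable h →
    (∀ x x', h x = h x' → ∃ g : G, g • x = x') → ∀ ε : ℝ, 0 < ε →
    ∃ n : X → ℕ, Measurable n ∧ ∃ K : Set X, MeasurableSet K ∧ μ.real Kᶜ ≤ ε ∧
      ∀ x ∈ K, ∀ x' ∈ K, n x = n x' → h x = h x' → x = x'

/-- TAB: (1.2). -/
def TAB_S : Prop := ∀ (X : Type) [MeasurableSpace X] [StandardBorelSpace X] (μ : Measure X)
  [IsProbabilityMeasure μ] (h : X → ℕ → Bool), Measurable h → ∀ K : Set X, MeasurableSet K →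
    Set.InjOn h K → ∀ e : X → ℕ, Measurable e → ∀ ε : ℝ, 0 < ε →
    ∃ (m : ℕ) (E : List Bool → ℕ), Computable E ∧ (∀ ρ, E ρ = E (ρ.take m)) ∧
      μ.real {x | x ∈ K ∧ E (pre (h x) m) ≠ e x} ≤ ε

/-- FUN: one string functional for a reduction on all points (1.3). -/
def FUN_S : Prop := TAB_S → ENU_S → MEAS_S → ∀ (X : Type) [MeasurableSpace X]
  [StandardBorelSpace X] (μ : Measure X) [IsProbabilityMeasure μ] (h : X → ℕ → Bool), Measurable h →
    ∀ K : Set X, MeasurableSet K → Set.InjOn h K → ∀ ε : ℝ, 0 < ε → μ.real Kᶜ ≤ ε →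
    (∀ s : X → X, Measurable s → (∀ x, TLe (h (s x)) (h x)) →
      ∃ F, IsFn F ∧ μ.real {x | ¬ Cmp F (h x) (h (s x))} ≤ 2 * ε) ∧
    ∀ bit : X → Bool, Measurable bit →
      ∃ (k : ℕ) (U : List Bool → Bool), Computable U ∧ μ.real {x | U (pre (h x) k) ≠ bit x} ≤ 2 * ε

/-- DEC: the Decoding Lemma, abstract form. -/
def DEC_S : Prop := ∀ (G : Type) [Group G] [Countable G] (X : Type) [MeasurableSpace X]
  [StandardBorelSpace X] [MulAction G X], (∀ g : G, Measurable fun x : X => g • x) →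
  ∀ (μ : Measure X) [IsProbabilityMeasure μ] (D : Dyn X μ) (bit : X → Bool), Measurable bit →
  ∀ p : ℕ → Bool, (∀ n x, bit (D.w n x) = xor (bit x) (p n)) →
    (∀ j, ∃ g : G, ∀ x, D.t j x = g • x) → (∀ j, ∃ g : G, ∀ x, D.ti j x = g • x) →
    (∃ g : G, ∀ x, D.a x = g • x) → (∃ g : G, ∀ x, D.ai x = g • x) →
    (∃ g : G, ∀ x, D.w 0 x = g • x) →
  ∀ h : X → ℕ → Bool, Measurable h → (∀ x x', TEq (h x) (h x') ↔ ∃ g : G, g • x = x') →
    ∃ x, TLe p (h x)

/-! ### The concrete relation -/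

/-- The group `F_∞ × ℤ`. -/
abbrev Gam : Type := FreeGroup ℕ × Multiplicative ℤ

/-- The space `2 ^ Γ`. -/
abbrev XX : Type := Gam → Bool

/-- The extension of `p` to `ℤ` by `false`. -/
def ext0 (p : ℕ → Bool) (m : ℤ) : Bool := if 0 ≤ m then p m.toNat else false

/-- `x` xor the translate of `p̂` by `n`. `flip0 p 0 = T_p`. -/
def flip0 (p : ℕ → Bool) (n : ℕ) (x : XX) : XX :=
  fun g => xor (x g) (ext0 p (Multiplicative.toAdd g.2 + n))

/-- `t_j`. -/
def tj (j : ℕ) : Gam := (FreeGroup.of j, 1)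

/-- `a`. -/
def aa : Gam := (1, Multiplicative.ofAdd 1)

/-- The bit at the identity. -/
def bit1 (x : XX) : Bool := x 1

/-- The shift as a permutation. -/
def shiftP (γ : Gam) : Equiv.Perm XX where
  toFun := shift γ
  invFun := shift γ⁻¹
  left_inv x := by funext δ; simp [shift]
  right_inv x := by funext δ; simp [shift]

/-- `T_p` as a permutation. -/
def flipP (p : ℕ → Bool) : Equiv.Perm XX where
  toFun := flip0 p 0
  invFun := flip0 p 0
  left_inv x := by funext δ; simp [flip0]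
  right_inv x := by funext δ; simp [flip0]

/-- The acting group. -/
abbrev GG : Type := FreeGroup (Option Gam)

/-- The action on the fibre of `p`. -/
def act (p : ℕ → Bool) : GG →* Equiv.Perm XX :=
  FreeGroup.lift fun o => match o with
    | none => flipP p
    | some γ => shiftP γ

/-- VAR: the variance inequality (V) for an arbitrary free family (see H74/Var.lean, `bound_V`, `variance`; the
approximating set has to be chosen within `ε → 0`). -/
def VAR_S : Prop := ∀ (Γ : Type) [Group Γ] [Countable Γ] (γ : ℕ → Γ),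
  Function.Injective (FreeGroup.lift γ : FreeGroup ℕ →* Γ) → ∀ B : Set (Γ → Bool), MeasurableSet B →
  ∀ N : ℕ, 0 < N → ∀ θ : ℝ, (coinPi Γ).real B < θ →
    (coinPi Γ).real {x | θ * N ≤ cnt N (fun j => shift (γ j) x ∈ B)} ≤
      16 * (coinPi Γ).real B / (N * (θ - (coinPi Γ).real B) ^ 2)

/-- XORM: `x ↦ x xor c` preserves the coin tossing measure. -/
def XORM_S : Prop := ∀ (Γ : Type) (c : Γ → Bool),
  MeasurePreserving (fun (x : Γ → Bool) (g : Γ) => xor (x g) (c g)) (coinPi Γ) (coinPi Γ)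

/-- CON: the concrete dynamical setting. -/
def CON_S : Prop := VAR_S → XORM_S → ∀ p : ℕ → Bool, ∃ D : Dyn XX (coinPi Gam),
  D.t = (fun j => shift (tj j)) ∧ D.ti = (fun j => shift (tj j)⁻¹) ∧ D.a = shift aa ∧
  D.ai = shift aa⁻¹ ∧ D.w = flip0 p ∧ ∀ n x, bit1 (D.w n x) = xor (bit1 x) (p n)

/-- The space `Y`. -/
abbrev YY : Type := (ℕ → Bool) × XX × Bool

/-- The countable Borel equivalence relation `F`. -/
def FF (y y' : YY) : Prop := y.1 = y'.1 ∧ y.2.2 = y'.2.2 ∧ ∃ g : GG, act y.1 g y.2.1 = y'.2.1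

/-- BOR: `F` is a countable Borel equivalence relation. -/
def BOR_S : Prop := Equivalence FF ∧ MeasurableSet {p : YY × YY | FF p.1 p.2} ∧
  (∀ y : YY, Set.Countable {z : YY | FF y z}) ∧
  (∀ (p : ℕ → Bool) (g : GG), Measurable fun x : XX => act p g x)

/-- DECC: the Decoding Lemma on the fibres. -/
def DECC_S : Prop := ∀ (p : ℕ → Bool) (h : XX → ℕ → Bool), Measurable h →
  (∀ x x', TEq (h x) (h x') ↔ ∃ g : GG, act p g x = x') → ∃ x, TLe p (h x)

/-- SEP: separation (the `A i` are analytic, Lusin). -/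
def SEP_S : Prop := MEAS_S → ∀ f : YY → ℕ → Bool, Measurable f →
  (∀ y y', FF y y' ↔ TEq (f y) (f y')) → ∃ C : Set (ℕ → Bool), MeasurableSet C ∧
    (∀ p x z, TEq z (f (p, x, false)) → z ∈ C) ∧ ∀ p x z, TEq z (f (p, x, true)) → z ∉ C

/-- GAM: consequence of Borel determinacy. -/
def GAM_S : Prop := D40.BD_S → TUR_S → ∀ C : Set (ℕ → Bool), MeasurableSet C →
  ∃ p : ℕ → Bool, (∀ b, TLe p b → ∃ z ∈ C, TEq z b) ∨ (∀ b, TLe p b → ∃ z, z ∉ C ∧ TEq z b)

/-- The conclusion. -/
def MAIN_S : Prop := ¬ ∃ f : YY → ℕ → Bool, Measurable f ∧ ∀ y y', FF y y' ↔ TEq (f y) (f y')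

theorem main_of (h1 : DECC_S) (h2 : MEAS_S) (h3 : SEP_S) (h4 : GAM_S) (h5 : D40.BD_S)
    (h6 : TUR_S) : MAIN_S := by
  rintro ⟨f, hf, hfe⟩
  obtain ⟨C, hC, hC0, hC1⟩ := h3 h2 f hf hfe
  obtain ⟨p, hp⟩ := h4 h5 h6 C hC
  have key : ∀ i : Bool, ∃ x, TLe p (f (p, x, i)) := by
    intro i
    refine h1 p (fun x => f (p, x, i)) (hf.comp ?_) fun x x' => ?_
    · exact measurable_const.prodMk (measurable_id.prodMk measurable_const)
    · rw [← hfe]
      unfold FF
      simp
  rcases hp with hp | hp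
  · obtain ⟨x, hx⟩ := key true
    obtain ⟨z, hz, hzb⟩ := hp _ hx
    exact hC1 p x z hzb hz
  · obtain ⟨x, hx⟩ := key false
    obtain ⟨z, hz, hzb⟩ := hp _ hx
    exact hz (hC0 p x z hzb)

end Pool.Agent.Lib.MP_75b31c_lc.N40
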